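import Pool.Agent.Helper35.HS3.GoalsC

/-!
# Project HS3, packet LIOU
-/

namespace Pool.Agent.Helper67.HS3.LIOU

open MeasureTheory Set Filter Topology Metric
open Pool.Agent.Helper35.HS3

theorem coord (x x' : E) (t : ℝ) :
    ‖x - (x' + t • bv 0)‖ ^ 2 = ((x - x') 0 - t) ^ 2 + (‖x - x'‖ ^ 2 - ((x - x') 0) ^ 2) := by
  rw [norm_sq_eq3, norm_sq_eq3]
  simp [bv_apply]
  ring

theorem Z_nonneg (y : E) : 0 ≤ ‖y‖ ^ 2 - (y 0) ^ 2 := by
  rw [norm_sq_eq3]
  nlinarith [sq_nonneg (y 1), sq_nonneg (y 2)]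

theorem norm_tr (y : E) : ‖y - (y 0) • bv 0‖ ^ 2 = ‖y‖ ^ 2 - (y 0) ^ 2 := by
  rw [norm_sq_eq3, norm_sq_eq3]
  simp [bv_apply]
  ring

theorem ge_of_sq {r a : ℝ} (hr : 0 ≤ r) (h : a ^ 2 ≤ r ^ 2) : a ≤ r :=
  abs_le_of_sq_le_sq' h hr |>.2

theorem lower {s Z T δ r₁ r₂ : ℝ} (h1 : 0 ≤ r₁) (h2 : 0 ≤ r₂) (e1 : r₁ ^ 2 = (s - 2) ^ 2 + Z)
    (e2 : r₂ ^ 2 = (s - T) ^ 2 + Z) (hZ : 0 ≤ Z) (hδ : 0 < δ) (hδ1 : δ ≤ 1)
    (h : s ≤ 1 ∨ δ * s ≤ Z) : δ / 3 ≤ r₁ + r₂ - (T - 2) := by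
  have a2 : T - s ≤ r₂ := ge_of_sq h2 (by nlinarith)
  rcases le_or_gt s 1 with hs | hs
  · have a1 : 2 - s ≤ r₁ := ge_of_sq h1 (by nlinarith)
    linarith
  · have hz : δ * s ≤ Z := by
      rcases h with h | h
      · linarith
      · exact h
    have a1 : s - 2 + δ / 3 ≤ r₁ := ge_of_sq h1 (by nlinarith)
    linarith

/-- The segment potential. -/
noncomputable def Lg (p q : E) (x : E) : ℝ :=
  Real.log ((‖x - p‖ + ‖x - q‖ + ‖p - q‖) / (‖x - p‖ + ‖x - q‖ - ‖p - q‖))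

theorem Lg_eq {p q x : E} (h : ‖p - q‖ < ‖x - p‖ + ‖x - q‖) :
    Lg p q x = Real.log (1 + 2 * ‖p - q‖ / (‖x - p‖ + ‖x - q‖ - ‖p - q‖)) := by
  unfold Lg
  congr 1
  have h0 := (sub_pos.2 h).ne'
  field_simp
  ring

theorem onPi {φ : E → ℝ}
    (hH : ∀ (x z : E) (t : ℝ), 0 < t → z 0 = 0 → φ x - ‖z‖ ^ 2 / (2 * t) ≤ φ (x + t • bv 0 + z))
    {m : ℝ} {x' : E} {lam δ : ℝ} (h2 : m + 2 * lam ≤ φ x') (hδ2 : δ ≤ 2 * lam) {y : E}
    (h1 : 1 ≤ (y - x') 0) (h3 : ‖y - x'‖ ^ 2 - ((y - x') 0) ^ 2 ≤ δ * (y - x') 0) :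
    m + lam ≤ φ y := by
  have h := hH x' (y - x' - ((y - x') 0) • bv 0) ((y - x') 0) (by linarith)
    (by simp [bv_apply])
  have e : x' + ((y - x') 0) • bv 0 + (y - x' - ((y - x') 0) • bv 0) = y := by abel
  rw [e, norm_tr] at h
  have h4 : (‖y - x'‖ ^ 2 - ((y - x') 0) ^ 2) / (2 * ((y - x') 0)) ≤ δ / 2 := by
    rw [div_le_iff₀ (by linarith)]; linarith
  linarith

theorem step (hMIN : MINU_stmt) (hSEG : SEG_stmt) {φ : E → ℝ} (hφ : ContDiff ℝ 2 φ)
    (hl : ∀ x, lap φ x ≤ 0)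
    (hH : ∀ (x z : E) (t : ℝ), 0 < t → z 0 = 0 → φ x - ‖z‖ ^ 2 / (2 * t) ≤ φ (x + t • bv 0 + z))
    {m : ℝ} (hm : ∀ x, m ≤ φ x) {x' : E} {lam δ : ℝ} (hlam : 0 < lam)
    (h2 : m + 2 * lam ≤ φ x') (hδ : 0 < δ) (hδ1 : δ ≤ 1) (hδ2 : δ ≤ 2 * lam) {T : ℝ}
    (hT : 3 ≤ T) {x : E}
    (hx : (x - x') 0 < 1 ∨ δ * (x - x') 0 < ‖x - x'‖ ^ 2 - ((x - x') 0) ^ 2) :
    (x' + (2 : ℝ) • bv 0) ≠ x ∧
    lam / Real.log (1 + 6 * (T - 2) / δ) *
      Real.log (1 + (T - 2) / ‖x - (x' + (2 : ℝ) • bv 0)‖) ≤ φ x - m := by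
  set p : E := x' + (2 : ℝ) • bv 0 with hp
  set q : E := x' + T • bv 0 with hq
  have hpq : ‖p - q‖ = T - 2 := by
    have e : p - q = (2 - T) • bv 0 := by rw [hp, hq, sub_smul]; abel
    rw [e, norm_smul, norm_bv, mul_one, Real.norm_eq_abs, abs_of_nonpos (by linarith)]
    ring
  have hcs : Continuous fun y : E => (y - x') 0 := by fun_prop
  have hcZ : Continuous fun y : E => ‖y - x'‖ ^ 2 - ((y - x') 0) ^ 2 := by fun_prop
  set U : Set E := {y | (y - x') 0 < 1} ∪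
    {y | δ * (y - x') 0 < ‖y - x'‖ ^ 2 - ((y - x') 0) ^ 2} with hU
  set C : Set E := {y | (y - x') 0 ≤ 1} ∪
    {y | δ * (y - x') 0 ≤ ‖y - x'‖ ^ 2 - ((y - x') 0) ^ 2} with hC
  have oU : IsOpen U := (isOpen_lt hcs continuous_const).union
    (isOpen_lt (continuous_const.mul hcs) hcZ)
  have cC : IsClosed C := (isClosed_le hcs continuous_const).union
    (isClosed_le (continuous_const.mul hcs) hcZ)
  have hUC : U ⊆ C := by
    rintro y (hy | hy)
    · exact Or.inl (show (y - x') 0 ≤ 1 from le_of_lt (show (y - x') 0 < 1 from hy))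
    · exact Or.inr (show δ * (y - x') 0 ≤ ‖y - x'‖ ^ 2 - ((y - x') 0) ^ 2 from
        le_of_lt (show δ * (y - x') 0 < ‖y - x'‖ ^ 2 - ((y - x') 0) ^ 2 from hy))
  have hclo : closure U ⊆ C := closure_minimal hUC cC
  have hlow : ∀ y ∈ C, δ / 3 ≤ ‖y - p‖ + ‖y - q‖ - (T - 2) := by
    intro y hy
    exact lower (norm_nonneg _) (norm_nonneg _) (coord y x' 2) (coord y x' T) (Z_nonneg (y - x'))
      hδ hδ1 hy
  have hlow' : ∀ y ∈ C, ‖p - q‖ < ‖y - p‖ + ‖y - q‖ := by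
    intro y hy
    have := hlow y hy
    rw [hpq]; linarith
  have hLpos : 0 < Real.log (1 + 6 * (T - 2) / δ) := by
    apply Real.log_pos
    have : 0 < 6 * (T - 2) / δ := div_pos (by linarith) hδ
    linarith
  set κ : ℝ := lam / Real.log (1 + 6 * (T - 2) / δ) with hκ
  have hκ0 : 0 < κ := div_pos hlam hLpos
  have hxU : x ∈ U := hx
  -- the function w
  have key : ∀ y ∈ U, 0 ≤ (φ y - m) - κ * Lg p q y := by
    refine hMIN U (fun y => (φ y - m) - κ * Lg p q y) oU ?_ ?_ ?_ ?_ ?_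
    · intro y hy
      have h1 := (hSEG p q y (hlow' y (hclo hy))).1
      have h3 : ContinuousAt (Lg p q) y := h1.continuousAt
      exact ((hφ.continuous.continuousAt.sub continuousAt_const).sub
        (continuousAt_const.mul h3)).continuousWithinAt
    · intro y hy
      have h1 : ContDiffAt ℝ 2 (Lg p q) y := (hSEG p q y (hlow' y (hUC hy))).1
      exact (hφ.contDiffAt.sub contDiffAt_const).sub (contDiffAt_const.mul h1)
    · intro y hy
      have h1 : ContDiffAt ℝ 2 (Lg p q) y := (hSEG p q y (hlow' y (hUC hy))).1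
      have h3 : lap (Lg p q) y = 0 := (hSEG p q y (hlow' y (hUC hy))).2
      rw [lap_sub (hφ.contDiffAt.sub contDiffAt_const) (contDiffAt_const.mul h1),
        lap_sub hφ.contDiffAt contDiffAt_const, lap_const, lap_const_mul κ h1, h3]
      linarith [hl y]
    · intro y hy
      have hyC : y ∈ C := hclo (frontier_subset_closure hy)
      have hyU : y ∉ U := by
        rw [oU.frontier_eq] at hy
        exact hy.2
      have hyU' : ¬ (y - x') 0 < 1 ∧ ¬ δ * (y - x') 0 < ‖y - x'‖ ^ 2 - ((y - x') 0) ^ 2 := by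
        constructor
        · intro h; exact hyU (Or.inl h)
        · intro h; exact hyU (Or.inr h)
      have hφy := onPi hH h2 hδ2 (not_lt.1 hyU'.1) (not_lt.1 hyU'.2)
      have hl1 := hlow y hyC
      have hLg : Lg p q y ≤ Real.log (1 + 6 * (T - 2) / δ) := by
        rw [Lg_eq (hlow' y hyC), hpq]
        have hd : 0 < ‖y - p‖ + ‖y - q‖ - (T - 2) := by linarith
        apply Real.log_le_log
        · have : 0 ≤ 2 * (T - 2) / (‖y - p‖ + ‖y - q‖ - (T - 2)) :=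
            div_nonneg (by linarith) hd.le
          linarith
        · have : 2 * (T - 2) / (‖y - p‖ + ‖y - q‖ - (T - 2)) ≤ 6 * (T - 2) / δ := by
            rw [div_le_div_iff₀ hd hδ]
            nlinarith
          linarith
      have : κ * Lg p q y ≤ lam := by
        calc κ * Lg p q y ≤ κ * Real.log (1 + 6 * (T - 2) / δ) :=
              mul_le_mul_of_nonneg_left hLg hκ0.le
          _ = lam := by rw [hκ, div_mul_cancel₀ _ hLpos.ne']
      show 0 ≤ (φ y - m) - κ * Lg p q y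
      linarith
    · intro ε hε
      refine ⟨‖p‖ + ‖q‖ + (T - 2) + 2 * (T - 2) * κ / ε + 1, fun y hy hR => ?_⟩
      have hyC : y ∈ C := hUC hy
      have hl1 := hlow y hyC
      have n1 : ‖y‖ - ‖p‖ ≤ ‖y - p‖ := norm_sub_norm_le y p
      have n2 : ‖y‖ - ‖q‖ ≤ ‖y - q‖ := norm_sub_norm_le y q
      have hd0 : 0 ≤ 2 * (T - 2) * κ / ε := by
        apply div_nonneg _ hε.le
        apply mul_nonneg _ hκ0.le
        linarith
      have hd : 2 * (T - 2) * κ / ε ≤ ‖y - p‖ + ‖y - q‖ - (T - 2) := by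
        have := norm_nonneg p
        have := norm_nonneg q
        linarith
      have hd1 : 0 < ‖y - p‖ + ‖y - q‖ - (T - 2) := by linarith
      have hLg : Lg p q y ≤ 2 * (T - 2) / (‖y - p‖ + ‖y - q‖ - (T - 2)) := by
        rw [Lg_eq (hlow' y hyC), hpq]
        have h0 : 0 ≤ 2 * (T - 2) / (‖y - p‖ + ‖y - q‖ - (T - 2)) :=
            div_nonneg (by linarith) hd1.le
        have := Real.log_le_sub_one_of_pos
          (show 0 < 1 + 2 * (T - 2) / (‖y - p‖ + ‖y - q‖ - (T - 2)) by linarith)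
        linarith
      have h5 : κ * Lg p q y ≤ ε := by
        calc κ * Lg p q y ≤ κ * (2 * (T - 2) / (‖y - p‖ + ‖y - q‖ - (T - 2))) :=
              mul_le_mul_of_nonneg_left hLg hκ0.le
          _ ≤ ε := by
              rw [← mul_div_assoc, div_le_iff₀ hd1]
              rw [div_le_iff₀ hε] at hd
              linarith
      show -ε ≤ (φ y - m) - κ * Lg p q y
      linarith [hm y]
  have hk := key x hxU
  have hxC : x ∈ C := hUC hxU
  have hl1 := hlow x hxC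
  have hpx : 0 < ‖x - p‖ := by
    have t := norm_sub_le_norm_sub_add_norm_sub x p q
    rw [hpq] at t
    by_contra h0
    have : ‖x - p‖ = 0 := le_antisymm (not_lt.1 h0) (norm_nonneg _)
    linarith
  refine ⟨fun h => ?_, ?_⟩
  · rw [← h, sub_self, norm_zero] at hpx
    exact lt_irrefl _ hpx
  have hLg : Real.log (1 + (T - 2) / ‖x - p‖) ≤ Lg p q x := by
    rw [Lg_eq (hlow' x hxC), hpq]
    have hd1 : 0 < ‖x - p‖ + ‖x - q‖ - (T - 2) := by linarith
    have t := norm_sub_le_norm_sub_add_norm_sub x p q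
    rw [hpq] at t
    apply Real.log_le_log
    · have : 0 ≤ (T - 2) / ‖x - p‖ := div_nonneg (by linarith) hpx.le
      linarith
    · have : (T - 2) / ‖x - p‖ ≤ 2 * (T - 2) / (‖x - p‖ + ‖x - q‖ - (T - 2)) := by
        rw [div_le_div_iff₀ hpx hd1]
        nlinarith
      linarith
  have := mul_le_mul_of_nonneg_left hLg hκ0.le
  linarith

/-- `φ ≥ m + λ` on `U`. -/
theorem onU (hMIN : MINU_stmt) (hSEG : SEG_stmt) {φ : E → ℝ} (hφ : ContDiff ℝ 2 φ)
    (hl : ∀ x, lap φ x ≤ 0)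
    (hH : ∀ (x z : E) (t : ℝ), 0 < t → z 0 = 0 → φ x - ‖z‖ ^ 2 / (2 * t) ≤ φ (x + t • bv 0 + z))
    {m : ℝ} (hm : ∀ x, m ≤ φ x) {x' : E} {lam δ : ℝ} (hlam : 0 < lam)
    (h2 : m + 2 * lam ≤ φ x') (hδ : 0 < δ) (hδ1 : δ ≤ 1) (hδ2 : δ ≤ 2 * lam) {x : E}
    (hx : (x - x') 0 < 1 ∨ δ * (x - x') 0 < ‖x - x'‖ ^ 2 - ((x - x') 0) ^ 2) :
    m + lam ≤ φ x := by
  have hst := fun (T : ℝ) (hT : 3 ≤ T) =>
    step hMIN hSEG hφ hl hH hm hlam h2 hδ hδ1 hδ2 hT hx
  have hne := (hst 3 le_rfl).1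
  set r := ‖x - (x' + (2 : ℝ) • bv 0)‖ with hr
  have hr0 : 0 < r := by
    rw [hr, norm_pos_iff, sub_ne_zero]
    exact hne.symm
  by_contra hcon
  push Not at hcon
  set g : ℝ := lam - (φ x - m) with hg
  have hg0 : 0 < g := by linarith
  -- a/b with a = 1/r, b = 6/δ
  set c : ℝ := min 1 (δ / (6 * r)) with hc
  have hc0 : 0 < c := lt_min one_pos (by positivity)
  have main : ∀ l : ℝ, 1 ≤ l → g * Real.log (1 + 6 * l / δ) ≤ - (lam * Real.log c) := by
    intro l hl1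
    have h := (hst (l + 2) (by linarith)).2
    have e : l + 2 - 2 = l := by ring
    rw [e] at h
    have hL : 0 < Real.log (1 + 6 * l / δ) := by
      apply Real.log_pos
      have : 0 < 6 * l / δ := by positivity
      linarith
    rw [div_mul_eq_mul_div, div_le_iff₀ hL] at h
    have h3 : Real.log c + Real.log (1 + 6 * l / δ) ≤ Real.log (1 + l / r) := by
      rw [← Real.log_mul hc0.ne' (by positivity)]
      apply Real.log_le_log (by positivity)
      rw [mul_add, mul_one]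
      have c1 : c ≤ 1 := min_le_left _ _
      have c2 : c ≤ δ / (6 * r) := min_le_right _ _
      have c3 : c * (6 * l / δ) ≤ δ / (6 * r) * (6 * l / δ) :=
        mul_le_mul_of_nonneg_right c2 (by positivity)
      have c4 : δ / (6 * r) * (6 * l / δ) = l / r := by field_simp
      linarith
    have h4 := mul_le_mul_of_nonneg_left h3 hlam.le
    rw [hg]
    nlinarith
  -- but the left side is unbounded
  have ht : Tendsto (fun l : ℝ => g * Real.log (1 + 6 * l / δ)) atTop atTop := by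
    apply Tendsto.const_mul_atTop hg0
    apply Real.tendsto_log_atTop.comp
    apply tendsto_atTop_add_const_left
    have e : (fun l : ℝ => 6 * l / δ) = fun l => (6 / δ) * l := by
      funext l; ring
    rw [e]
    exact Tendsto.const_mul_atTop (by positivity) tendsto_id
  obtain ⟨l, hl1, hl2⟩ := ((ht.eventually_gt_atTop (- (lam * Real.log c))).and
    (eventually_ge_atTop (1 : ℝ))).exists
  exact absurd (main l hl2) (not_le.2 hl1)

theorem proof : MINU_stmt → SEG_stmt → LIOU_stmt := by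
  intro hMIN hSEG φ B hφ hl hB hH
  have hbdd : BddBelow (range φ) := ⟨-B, by rintro _ ⟨x, rfl⟩; exact hB x⟩
  set m := ⨅ x, φ x with hmdef
  have hm : ∀ x, m ≤ φ x := fun x => ciInf_le hbdd x
  have hall : ∀ x', φ x' = m := by
    intro x'
    by_contra hne
    have hlt : m < φ x' := lt_of_le_of_ne (hm x') (Ne.symm hne)
    set lam := (φ x' - m) / 2 with hlam
    have hlam0 : 0 < lam := by rw [hlam]; linarith
    have h2 : m + 2 * lam ≤ φ x' := by rw [hlam]; linarith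
    have hδ : 0 < min 1 (2 * lam) := lt_min one_pos (by linarith)
    have hge : ∀ x, m + lam ≤ φ x := by
      intro x
      by_cases hx : (x - x') 0 < 1 ∨
          (min 1 (2 * lam)) * (x - x') 0 < ‖x - x'‖ ^ 2 - ((x - x') 0) ^ 2
      · exact onU hMIN hSEG hφ hl hH hm hlam0 h2 hδ (min_le_left _ _) (min_le_right _ _) hx
      · rw [not_or, not_lt, not_lt] at hx
        exact onPi hH h2 (min_le_right 1 _) hx.1 hx.2
    have : m + lam ≤ m := le_ciInf hge
    linarith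
  intro x y
  rw [hall x, hall y]

end Pool.Agent.Helper67.HS3.LIOU
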